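import Pool.Agent.E8helper53.GS.GenS

/-!
# Greenberg's conjecture for the levels `N₁ ∏ ℓ^(n_ℓ)`, `ℓ` in a finite set `S`: an explicit bound for the
exceptional characters

Let `p` be an odd prime number, `S` a finite set of prime numbers and `N₁` prime to `p` and to `S`, `p` not
dividing `φ(N₁ ∏ ℓ)`. Consider all levels `N = N₁ ∏_{ℓ ∈ S} ℓ^(n_ℓ)`. The even characters `θ` of `(ℤ/pN)^×` are the
`ψ ω^m` with characters `ψ` modulo `N`, `1 ≤ m ≤ p - 1`, `ψ(-1) = (-1)^m`. Friedman's theorem (Washington's theorem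
if `S` has one element) says that

  `L_p(1 - m, θ) = - (1 - ψ(p) p^(m-1)) B_{m,ψ} / m`

is a unit at all places above `p` for all but finitely many of these `θ` with `m` fixed; it was proved by
equidistribution (Friedman) and by an algebraic method of Sinnott, both without a bound for the exceptions.
We prove the theorem with an explicit bound: there is no exception if the part at `S` of the conductor of `ψ` is at
least `A^((K+1)^|S| - 1)`, where `A = 2 N₁ p^(3g+1)`, `K ≥ φ(ℓ - 1)` for all `ℓ ∈ S`, and `g` is such that `p^g - 1`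
is divisible by the exponent of `(ℤ/N₁)^×`, by all `ℓ (ℓ - 1)` and by `4` if `2 ∈ S`. (Such `g` exist if and only if
`p` does not divide `φ(N₁ ∏ ℓ)`, which is the hypothesis of the problem file.)

For `θ` as in the theorem the `p`-adic `L`-function is a unit and the component `X_θ` of `X⁺` vanishes (see the problem
file for the support of `X_θ`). Hence for given `p`, `N₁`, `S` Greenberg's conjecture for all levels
`N₁ ∏ ℓ^(n_ℓ)` is a statement about an explicit finite set of `θ`.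

Proof. Suppose that the sum `∑ ψ(x) B_m(x/N)` vanishes at a place above `p`, and let `M` be the part at `S` of `N`.
By a selection (`greedy`) one can enlarge `N₁` and `g` and assume that all prime powers in `M` are large compared with
`N₁` and `p^g`. In characteristic `p` put `G(W) = ∑_{x<N} ψ₁(x) (B_m(x/N) - B_m) W^x`. By Gauss sums and traces,
`∑_{h ∈ H} ψ⁻¹(h) G(ζ^(c h)) = 0` for all units `c` modulo `M`, `H = {h : h^(q-1) = 1}`, `q = p^g` (`relB`). By the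
reflection `x ↦ N - x`, `H` can be replaced by a half system (`relC`). `G(W) (W^E - 1)` is a polynomial of degree less
than `E = N₁ p L`, where `L` is the part of `q - 1` at `S` (`freq`). Multiplying by the denominators one obtains a
relation between monomials `ζ^(c (x r + E ∑ r'))` with representatives `r`, `r'` of `H` modulo `U = {u ≡ 1 (M/L)}`.
Small relations between such representatives lift to relations between complex roots of unity of order `ℓ - 1`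
(`exists_Theta`; resultants). The half system is chosen as the set of `h` with `Re(τ θ(h)) > 0`, where `θ` is the lift
for one `ℓ` and `τ` is generic. Then the term for which `x Re(τ θ(r))` is minimal occurs only once (`uniq`), a
contradiction (`core_gs`).
-/

set_option autoImplicit false

namespace Pool.Agent.Results.MP_c2a07f_nt.FinitelyManyPrimesEffectiveH53

/-- The generalized Bernoulli number `B_{m,ψ} = N^(m-1) ∑_{a=1}^N ψ(a) B_m(a/N)`. -/
noncomputable def genBernoulli (m : ℕ) {N : ℕ} (ψ : DirichletCharacter ℂ N) : ℂ :=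
  (N : ℂ) ^ (m - 1) * ∑ a ∈ Finset.Icc 1 N, ψ (a : ZMod N) *
    (((Polynomial.bernoulli m).eval ((a : ℚ) / N) : ℚ) : ℂ)

/-- `(1 - ψ(p) p^(m-1)) B_{m,ψ} / m`, the value at `1 - m` of the `L`-function of `ψ` without Euler factor
at `p` (up to the sign). -/
noncomputable def lValue (p m : ℕ) {N : ℕ} (ψ : DirichletCharacter ℂ N) : ℂ :=
  (1 - ψ (p : ZMod N) * (p : ℂ) ^ (m - 1)) * genBernoulli m ψ / m

/-- `z` is a unit at all places above `p`: it is not zero, and for some integer `c` prime to `p` the numbers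
`c z` and `c / z` are algebraic integers. -/
def IsUnitAt (p : ℕ) (z : ℂ) : Prop :=
  z ≠ 0 ∧ ∃ c : ℤ, IsCoprime (p : ℤ) c ∧ IsIntegral ℤ ((c : ℂ) * z) ∧ IsIntegral ℤ ((c : ℂ) * z⁻¹)

open Finset

lemma sum_Icc {N : ℕ} (f : ℕ → ℂ) (h0 : f 0 = f N) :
    ∑ a ∈ Icc 1 N, f a = ∑ a ∈ range N, f a := by
  have h1 : ∑ a ∈ range (N + 1), f a = ∑ a ∈ range N, f a + f N := Finset.sum_range_succ f N
  have h2 : ∑ a ∈ range (N + 1), f a = ∑ a ∈ Icc 1 N, f a + f 0 := by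
    rw [Finset.sum_range_succ']
    congr 1
    refine Finset.sum_bij (fun a _ => a + 1) ?_ ?_ ?_ (fun _ _ => rfl)
    · intro a ha
      have := mem_range.1 ha
      rw [mem_Icc]
      omega
    · intro a _ b _ hab
      omega
    · intro b hb
      rw [mem_Icc] at hb
      exact ⟨b - 1, mem_range.2 (by omega), by omega⟩
  rw [h1, h0] at h2
  exact (add_right_cancel h2).symm

/-- **Theorem.** Let `p` be an odd prime number, `S` a nonempty finite set of prime numbers, `N₁` prime to `p` and to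
all `ℓ ∈ S`. Let `g > 0` be such that `p^g - 1` is divisible by the exponent of `(ℤ/N₁)^×`, by `ℓ (ℓ - 1)` for all
`ℓ ∈ S`, and by `4` if `2 ∈ S`; let `φ(ℓ - 1) ≤ K` for all `ℓ ∈ S`. If
`∏ ℓ^(n_ℓ) ≥ (2 N₁ p^(3g+1))^((K+1)^|S| - 1)`, then for all Dirichlet characters `ψ` modulo `N₁ ∏ ℓ^(n_ℓ)` whose
conductor is divisible by `∏ ℓ^(n_ℓ)`, and all `1 ≤ m ≤ p - 1` with `ψ(-1) = (-1)^m`, the number
`(1 - ψ(p) p^(m-1)) B_{m,ψ} / m` is a unit at all places above `p`. -/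
theorem result (p : ℕ) (hp : p.Prime) (hp2 : p ≠ 2) (S : Finset ℕ) (hS : ∀ ℓ ∈ S, ℓ.Prime) (hS0 : S.Nonempty)
    (N₁ : ℕ) (hN₁ : N₁.Coprime p) (hN₁S : ∀ ℓ ∈ S, N₁.Coprime ℓ)
    (g : ℕ) (hg0 : 0 < g) (hexp : Monoid.exponent (ZMod N₁)ˣ ∣ p ^ g - 1)
    (hgS : ∀ ℓ ∈ S, ℓ * (ℓ - 1) ∣ p ^ g - 1) (hg4 : 2 ∈ S → 4 ∣ p ^ g - 1)
    (K : ℕ) (hK : ∀ ℓ ∈ S, (ℓ - 1).totient ≤ K) (n : ℕ → ℕ)
    (hlarge : (2 * N₁ * p ^ (3 * g + 1)) ^ ((K + 1) ^ S.card - 1) ≤ ∏ ℓ ∈ S, ℓ ^ n ℓ)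
    (m : ℕ) (hm1 : 1 ≤ m) (hmp : m ≤ p - 1)
    (ψ : DirichletCharacter ℂ (N₁ * ∏ ℓ ∈ S, ℓ ^ n ℓ)) (hψ : ∏ ℓ ∈ S, ℓ ^ n ℓ ∣ ψ.conductor)
    (hpar : ψ (-1) = (-1) ^ m) : IsUnitAt p (lValue p m ψ) := by
  have hpN : ¬ p ∣ N₁ := (Nat.Prime.coprime_iff_not_dvd hp).1 hN₁.symm
  have hN0 : 0 < N₁ := by
    rcases Nat.eq_zero_or_pos N₁ with h | h
    · rw [h] at hpN
      exact absurd (dvd_zero p) hpN
    · exact h
  have hexp' : ∀ U : (ZMod N₁)ˣ, U ^ (p ^ g - 1) = 1 := by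
    intro U
    obtain ⟨c, hc⟩ := hexp
    rw [hc, pow_mul, Monoid.pow_exponent_eq_one, one_pow]
  have h2 := hp.two_le
  have key := Pool.Agent.E8helper53.GS.general hp hp2 hS hS0 hpN hN₁S hg0.ne' hexp' hgS hg4 hK n hlarge hm1
    (by omega : m < p) rfl ψ hψ hpar
  obtain ⟨ℓ₀, hℓ₀⟩ := hS0
  have hN1 : N₁ * ∏ ℓ ∈ S, ℓ ^ n ℓ ≠ 1 := by
    intro h
    have hK1 : 1 ≤ K := le_trans (Nat.totient_pos.2 (by have := (hS ℓ₀ hℓ₀).two_le; omega)) (hK ℓ₀ hℓ₀)
    have h3 : 1 ≤ (K + 1) ^ S.card - 1 := by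
      have h4 : (K + 1) ^ 1 ≤ (K + 1) ^ S.card := Nat.pow_le_pow_right (by omega) (card_pos.2 ⟨ℓ₀, hℓ₀⟩)
      rw [pow_one] at h4
      omega
    have h5 : 2 ≤ 2 * N₁ * p ^ (3 * g + 1) := by
      have h6 : 1 ≤ N₁ * p ^ (3 * g + 1) := Nat.mul_pos hN0 (pow_pos hp.pos _)
      calc 2 = 2 * 1 := by norm_num
        _ ≤ 2 * (N₁ * p ^ (3 * g + 1)) := Nat.mul_le_mul_left _ h6
        _ = 2 * N₁ * p ^ (3 * g + 1) := by ring
    have h7 : 2 ^ 1 ≤ (2 * N₁ * p ^ (3 * g + 1)) ^ ((K + 1) ^ S.card - 1) :=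
      (Nat.pow_le_pow_left h5 1).trans (Nat.pow_le_pow_right (by omega) h3)
    have h8 := Nat.le_mul_of_pos_left (∏ ℓ ∈ S, ℓ ^ n ℓ) hN0
    omega
  have e1 : lValue p m ψ = (1 - ψ (p : ZMod (N₁ * ∏ ℓ ∈ S, ℓ ^ n ℓ)) * (p : ℂ) ^ (m - 1)) *
      (((N₁ * ∏ ℓ ∈ S, ℓ ^ n ℓ : ℕ) : ℂ) ^ (m - 1) * ∑ x ∈ range (N₁ * ∏ ℓ ∈ S, ℓ ^ n ℓ),
        ψ (x : ZMod (N₁ * ∏ ℓ ∈ S, ℓ ^ n ℓ)) *
        (((Polynomial.bernoulli m).eval ((x : ℚ) / (N₁ * ∏ ℓ ∈ S, ℓ ^ n ℓ : ℕ)) : ℚ) : ℂ)) / m := by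
    unfold lValue genBernoulli
    rw [sum_Icc]
    rw [Nat.cast_zero, ZMod.natCast_self, DirichletCharacter.map_zero' ψ hN1, zero_mul, zero_mul]
  rw [e1]
  exact key

end Pool.Agent.Results.MP_c2a07f_nt.FinitelyManyPrimesEffectiveH53
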