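import Pool.Agent.E8helper95.GA17

/-!
# The `5`-adic `L`-functions of all characters of level `2^a * 3^b`

Let `p = 5` and let `N = 2^a * 3^b` be any number without prime factors other than `2` and `3`. The even characters `θ`
modulo `5 N` whose conductor away from `5` is `N` are the `ψ ω^m` with a primitive character `ψ` modulo `N`, `1 ≤ m ≤ 4`
and `ψ(-1) = (-1)^m`. The number

  `(1 - ψ(5) 5^(m-1)) B_{m,ψ} / m`  (up to the sign the value `L_5(1 - m, θ)` of the `5`-adic `L`-function)

is a unit at all places above `5` if and only if `(N, m)` is not one of the six pairs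
`(1, 4)`, `(4, 1)`, `(24, 1)`, `(16, 2)`, `(48, 3)`, `(36, 4)`.

Proof. If both `2^a` and `3^b` are not small, one takes traces to the field with `25` elements and is left with relations
between the sums over two classes modulo `N / 24`. These sums are polynomials of degree `m - 1` in the class with known
leading coefficient, along pairs of classes on which the quotient of the two character values does not change. This gives
that quotient, and a second family of pairs gives another value for it. If one of `2^a`, `3^b` is much larger than the other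
the levels are contained in the starting results. The remaining finitely many levels are settled by a calculation in the
field with `25` elements, and the six exceptional pairs by explicit values.
-/

set_option autoImplicit false

namespace Pool.Agent.Results.MP_c2a07f_nt.LevelsTwoThreeH95

/-- The generalized Bernoulli number `B_{m,ψ} = N^(m-1) ∑_{a=1}^N ψ(a) B_m(a/N)`. -/
noncomputable def genBernoulli (m : ℕ) {N : ℕ} (ψ : DirichletCharacter ℂ N) : ℂ :=
  (N : ℂ) ^ (m - 1) * ∑ a ∈ Finset.Icc 1 N, ψ (a : ZMod N) *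
    (((Polynomial.bernoulli m).eval ((a : ℚ) / N) : ℚ) : ℂ)

/-- `(1 - ψ(p) p^(m-1)) B_{m,ψ} / m`, the value at `1 - m` of the `L`-function of `ψ` without Euler factor
at `p` (up to the sign). -/
noncomputable def lValue (p m : ℕ) {N : ℕ} (ψ : DirichletCharacter ℂ N) : ℂ :=
  (1 - ψ (p : ZMod N) * (p : ℂ) ^ (m - 1)) * genBernoulli m ψ / m

/-- `z` is a unit at all places above `p`: it is not zero, and for some integer `c` prime to `p` the numbers
`c z` and `c / z` are algebraic integers. -/
def IsUnitAt (p : ℕ) (z : ℂ) : Prop :=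
  z ≠ 0 ∧ ∃ c : ℤ, IsCoprime (p : ℤ) c ∧ IsIntegral ℤ ((c : ℂ) * z) ∧ IsIntegral ℤ ((c : ℂ) * z⁻¹)

open Pool.Agent.E8helper95.G in
theorem result (N m : ℕ) (hN : ∃ a b : ℕ, N = 2 ^ a * 3 ^ b) (hm1 : 1 ≤ m) (hm4 : m ≤ 4)
    (ψ : DirichletCharacter ℂ N) (hprim : ψ.IsPrimitive) (hpar : ψ (-1) = (-1) ^ m) :
    IsUnitAt 5 (lValue 5 m ψ) ↔
      (N, m) ∉ ({(1, 4), (4, 1), (24, 1), (16, 2), (48, 3), (36, 4)} : Finset (ℕ × ℕ)) := by
  constructor
  · intro h hmem
    simp only [Finset.mem_insert, Finset.mem_singleton, Prod.mk.injEq] at hmem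
    rcases hmem with ⟨rfl, rfl⟩ | ⟨rfl, rfl⟩ | ⟨rfl, rfl⟩ | ⟨rfl, rfl⟩ | ⟨rfl, rfl⟩ | ⟨rfl, rfl⟩
    · exact conv1 ψ h
    · exact conv4 ψ h
    · exact conv24 ψ hprim h
    · exact conv16 ψ hprim hpar h
    · exact conv48 ψ hprim hpar h
    · exact conv36 ψ hprim hpar h
  · intro h
    obtain ⟨a, b, rfl⟩ := hN
    refine forward a b m hm1 hm4 ψ hprim hpar ?_ ?_ ?_ ?_ ?_ ?_ <;>
    · rintro ⟨rfl, rfl, rfl⟩
      exact h (by decide)

end Pool.Agent.Results.MP_c2a07f_nt.LevelsTwoThreeH95
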