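import Pool.Agent.E8helper53.PR.Ord

/-!
# Greenberg's conjecture at prime levels `q` (and levels `N₁ q`) for characters of large order

Let `p` be an odd prime number and `N₁` prime to `p`. The even characters `θ` of `(ℤ/pN)^×`, `N = N₁ q`, are the
`ψ ω^m` with characters `ψ` modulo `N`, `1 ≤ m ≤ p - 1`, `ψ(-1) = (-1)^m`, and

  `L_p(1 - m, θ) = - (1 - ψ(p) p^(m-1)) B_{m,ψ} / m`.

If this value is a unit at the places above `p`, then the `p`-adic `L`-function of `θ` is a unit and the component
`X_θ` of `X⁺` vanishes (see the problem file for the support of `X_θ`).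

The theorems of Washington, Friedman and Sinnott (and our file on finite sets `S` of primes) treat levels
`N₁ ∏ ℓ^(n_ℓ)` with `ℓ` in a fixed finite set and `n_ℓ → ∞`. Here the prime number `q` varies and the characters
`ψ` have large order: write `q = M d + 1` with `d` even and let `ψ` have order `M n`, where `ψ^n` is a character
modulo `q`. We assume that the places above `p` do not split in `ℚ(ζ_(Mn)) / ℚ(ζ_n)` (all `u ≡ 1` modulo `n` which
are prime to `M n` are powers of `p` modulo `M n`), and that `M` is prime or composed of primes dividing `n`. Then the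
value is a unit at all places above `p` as soon as `(4 p d N₁ (log₂ (N₁ q) + 1))^(d/2) < q`.

Examples:
* `q = 2 r s + 1`, `r` prime, `M = r`, `d = 2 s`, `n ∣ p^f - 1` and `p^f` a primitive root modulo `r`: the condition is
  `(8 p s N₁ (log₂ (N₁ q) + 1))^s < q`, for `s = 1` it is `8 p N₁ (log₂ (N₁ q) + 1) < q`. If also `2 s ∣ p^f - 1` and
  `N₁ = 1`, this concerns all characters modulo `q` except the `2 s` characters with `ψ^(2 s) = 1`.
* `q = ℓ^a t + 1`, `ℓ` prime, `t` prime to `ℓ`, `ψ` of order `ℓ^a n'` where `n' ∣ p^f - 1` is prime to `ℓ`,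
  `p^f ≡ 1` modulo `ℓ` (modulo `4` if `ℓ = 2`), `ℓ^c` the exact power of `ℓ` in `p^f - 1`, `c ≤ a`: here
  `M = ℓ^(a-c)`, `n = ℓ^c n'`, `d = ℓ^c t`.

Proof. Suppose that the value is not a unit at a place above `p` and let `χ` be the reduction of `ψ`. For all but at
most one of the characters `λ` modulo `q` with `λ^M = 1` the character `ψ λ` is a power `ψ^(p^j)`. Applying powers of
the Frobenius to `∑ χ(x) B_m(x/N) = 0` and summing over `λ` one obtains that the sums
`Φ(x) = ∑_{v^d=1} χ(v) H(x v)` over the group of `d`-th roots of unity modulo `q` satisfy `Φ(2x) = λ Φ(x)` for all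
units `x` modulo `q` (`phi_const2`; `H` is a sum of Bernoulli polynomials over a residue class modulo `q`). By
Dirichlet's box principle there is a unit `y` such that all `y v` are represented by small integers `w_v`
(`half_pigeon`; only half of the `v` matter). Therefore `t ↦ ∑ d_i h(t u_i / q)` is constant for all `t` prime to `q`,
with small integers `u_i` and a function `h` of period `1` which is polynomial between the fractions with denominator
`N₁`. The largest `u_i` occurs only once (it is twice the largest `|w_v|`). The fractions `j / (N₁ u_i)` with this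
`u_i` and `j` prime to `N₁ u_i` are jumps of one term, and one of them is far from the jumps of all other terms
(`exists_j`; Euler's function). Near this fraction the sum cannot be constant (`no_rel'`).
-/

set_option autoImplicit false

namespace Pool.Agent.Results.MP_c2a07f_nt.PrimeConductorNonsplitH53

/-- The generalized Bernoulli number `B_{m,ψ} = N^(m-1) ∑_{a=1}^N ψ(a) B_m(a/N)`. -/
noncomputable def genBernoulli (m : ℕ) {N : ℕ} (ψ : DirichletCharacter ℂ N) : ℂ :=
  (N : ℂ) ^ (m - 1) * ∑ a ∈ Finset.Icc 1 N, ψ (a : ZMod N) *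
    (((Polynomial.bernoulli m).eval ((a : ℚ) / N) : ℚ) : ℂ)

/-- `(1 - ψ(p) p^(m-1)) B_{m,ψ} / m`, the value at `1 - m` of the `L`-function of `ψ` without Euler factor
at `p` (up to the sign). -/
noncomputable def lValue (p m : ℕ) {N : ℕ} (ψ : DirichletCharacter ℂ N) : ℂ :=
  (1 - ψ (p : ZMod N) * (p : ℂ) ^ (m - 1)) * genBernoulli m ψ / m

/-- `z` is a unit at all places above `p`: it is not zero, and for some integer `c` prime to `p` the numbers
`c z` and `c / z` are algebraic integers. -/
def IsUnitAt (p : ℕ) (z : ℂ) : Prop :=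
  z ≠ 0 ∧ ∃ c : ℤ, IsCoprime (p : ℤ) c ∧ IsIntegral ℤ ((c : ℂ) * z) ∧ IsIntegral ℤ ((c : ℂ) * z⁻¹)

open Finset

lemma sum_Icc {N : ℕ} (f : ℕ → ℂ) (h0 : f 0 = f N) :
    ∑ a ∈ Icc 1 N, f a = ∑ a ∈ range N, f a := by
  have h1 : ∑ a ∈ range (N + 1), f a = ∑ a ∈ range N, f a + f N := Finset.sum_range_succ f N
  have h2 : ∑ a ∈ range (N + 1), f a = ∑ a ∈ Icc 1 N, f a + f 0 := by
    rw [Finset.sum_range_succ']
    congr 1
    refine Finset.sum_bij (fun a _ => a + 1) ?_ ?_ ?_ (fun _ _ => rfl)
    · intro a ha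
      have := mem_range.1 ha
      rw [mem_Icc]
      omega
    · intro a _ b _ hab
      omega
    · intro b hb
      rw [mem_Icc] at hb
      exact ⟨b - 1, mem_range.2 (by omega), by omega⟩
  rw [h1, h0] at h2
  exact (add_right_cancel h2).symm

/-- **Theorem.** Let `p` be an odd prime number, `N₁` prime to `p`, and `q = M d + 1` a prime number with `d` even and
`M` prime to `p`, such that `(4 p d N₁ (⌊log₂ (N₁ q)⌋ + 1))^(d/2) < q`. Let `ψ` be a Dirichlet character modulo `N₁ q`
of order `M n` such that `ψ^n` is induced by a character `μ` modulo `q`. Suppose that `M` is a prime number or that all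
prime factors of `M` divide `n`, and that every `u ≡ 1` modulo `n` prime to `M n` is congruent to a power of `p`
modulo `M n`. Then for all `1 ≤ m ≤ p - 1` with `ψ(-1) = (-1)^m` the number `(1 - ψ(p) p^(m-1)) B_{m,ψ} / m` is a unit
at all places above `p`. -/
theorem result (p : ℕ) (hp : p.Prime) (hp2 : p ≠ 2) (N₁ : ℕ) (hN₁ : N₁.Coprime p)
    (q d M : ℕ) (hq : q.Prime) (hqd : q = M * d + 1) (hd : Even d) (hMp : M.Coprime p)
    (hlarge : (4 * p * d * N₁ * (Nat.log 2 (N₁ * q) + 1)) ^ (d / 2) < q)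
    (n : ℕ) (ψ : DirichletCharacter ℂ (N₁ * q)) (hord : orderOf ψ = M * n)
    (μ : DirichletCharacter ℂ q) (hμ : ψ ^ n = DirichletCharacter.changeLevel (dvd_mul_left q N₁) μ)
    (hM : M.Prime ∨ ∀ ℓ : ℕ, ℓ.Prime → ℓ ∣ M → ℓ ∣ n)
    (hpow : ∀ u : ℕ, u.Coprime (M * n) → u ≡ 1 [MOD n] → ∃ j : ℕ, p ^ j ≡ u [MOD M * n])
    (m : ℕ) (hm1 : 1 ≤ m) (hmp : m ≤ p - 1) (hpar : ψ (-1) = (-1) ^ m) : IsUnitAt p (lValue p m ψ) := by
  have hpN : ¬ p ∣ N₁ := (Nat.Prime.coprime_iff_not_dvd hp).1 hN₁.symm
  have hpM : ¬ p ∣ M := (Nat.Prime.coprime_iff_not_dvd hp).1 hMp.symm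
  have hN0 : 0 < N₁ := by
    rcases Nat.eq_zero_or_pos N₁ with h | h
    · rw [h] at hpN
      exact absurd (dvd_zero p) hpN
    · exact h
  have h2 := hp.two_le
  have key := Pool.Agent.E8helper53.PR.general_E hp hp2 hpN hq hqd hd hpM hlarge hm1
    (by omega : m < p) ψ hpar hord μ hμ hM hpow
  have hN1 : N₁ * q ≠ 1 := by
    intro h
    have h3 := Nat.eq_one_of_mul_eq_one_left h
    exact hq.one_lt.ne' h3
  have e1 : lValue p m ψ = (1 - ψ (p : ZMod (N₁ * q)) * (p : ℂ) ^ (m - 1)) *
      (((N₁ * q : ℕ) : ℂ) ^ (m - 1) * ∑ x ∈ range (N₁ * q), ψ (x : ZMod (N₁ * q)) *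
        (((Polynomial.bernoulli m).eval ((x : ℚ) / ((N₁ * q : ℕ) : ℚ)) : ℚ) : ℂ)) / m := by
    unfold lValue genBernoulli
    rw [sum_Icc]
    rw [Nat.cast_zero, ZMod.natCast_self, DirichletCharacter.map_zero' ψ hN1, zero_mul, zero_mul]
  rw [e1]
  exact key

end Pool.Agent.Results.MP_c2a07f_nt.PrimeConductorNonsplitH53
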