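import Pool.Agent.E8helper53.GR.Large

/-!
# Greenberg's conjecture for all levels `N₁ 2^a 3^b`: a polynomial bound for the exceptional characters

Let `p ≥ 5` be a prime number and `N₁` prime to `6 p`, `p` not dividing `φ(N₁)`. Consider all levels
`N = N₁ 2^a 3^b`, `a, b ≥ 0`. The even characters `θ` of `(ℤ/pN)^×` are the `ψ ω^m` with characters `ψ` modulo `N`,
`1 ≤ m ≤ p - 1`, `ψ(-1) = (-1)^m`. We show that

  `L_p(1 - m, θ) = - (1 - ψ(p) p^(m-1)) B_{m,ψ} / m`

is a unit at all places above `p`, for **all** `θ` for which the part `2^a 3^b` of the conductor is at least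
`N₁^3 p^(3 g + 4)`. Here `g` is an even number for which the exponent of `(ℤ/N₁)^×` divides `p^g - 1`. For `N₁ = 1` the
bound is `p^10`.

Consequences. For these `θ` the `p`-adic `L`-function is a unit, and the component `X_θ` of `X⁺` vanishes (`X_θ` is
a quotient of a module with this characteristic ideal and without finite submodules, see the problem file). So
for given `p` and `N₁` the conjecture `X⁺` finite **for all levels** `N₁ 2^a 3^b` is a statement about finitely many
explicit `θ`; for `N₁ = 1` only those of conductor at most `p^11` are left.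

Earlier results. That there are only finitely many exceptions is a theorem of Washington (one prime) and
Friedman (finitely many primes), by ergodic methods; Sinnott gave an algebraic proof. For one prime `ℓ` there are
explicit bounds (Friedman-Sands for `ℓ = 3`, Burungale-Sun). For `N = N₁ 2^a 3^b` the starting files
contain the cones `3^b ≥ m N₁ 2^a 9^B` and `2^a ≥ m N₁ 3^b 4^A` (see `cone`; `2^A`, `3^B` are the parts of `p^g - 1`).
New is the range between the two cones, which contains the `N` with `2^a` and `3^b` of the same size, and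
therefore the uniform polynomial bound for the two-parameter family.

The idea for the range between the cones. Suppose that the sum `∑ ψ(x) B_m(x / N)` vanishes at a place above `p`.
Taking traces to the field with `q = p^g` elements, first for the prime `3`, then for the prime `2`, one obtains
relations with two terms: for `0 < u, w < M = 2^(a-A) 3^(b-B)` with `u = w` modulo `3^(b-B)`, `u = -w` modulo `2^(a-A)`,
the sums over the classes of `u` and `w` modulo `M` cancel (`relation`). The sum over the class of `u` is `ψ(u)`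
times a number that depends only on `u` modulo `p N₁ (q-1)`. The shift of `u` and `w` by `2^(a-A-1) 3^B N₁ p` changes
only the quotient `ψ(w) / ψ(u)`, therefore the class sums vanish (`vanish`). But they are polynomials of degree at most
`m - 1` in the class (`core_mix`).
-/

set_option autoImplicit false

namespace Pool.Agent.Results.MP_c2a07f_nt.TwoPrimesEffectiveH53

/-- The generalized Bernoulli number `B_{m,ψ} = N^(m-1) ∑_{a=1}^N ψ(a) B_m(a/N)`. -/
noncomputable def genBernoulli (m : ℕ) {N : ℕ} (ψ : DirichletCharacter ℂ N) : ℂ :=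
  (N : ℂ) ^ (m - 1) * ∑ a ∈ Finset.Icc 1 N, ψ (a : ZMod N) *
    (((Polynomial.bernoulli m).eval ((a : ℚ) / N) : ℚ) : ℂ)

/-- `(1 - ψ(p) p^(m-1)) B_{m,ψ} / m`, the value at `1 - m` of the `L`-function of `ψ` without Euler factor
at `p` (up to the sign). -/
noncomputable def lValue (p m : ℕ) {N : ℕ} (ψ : DirichletCharacter ℂ N) : ℂ :=
  (1 - ψ (p : ZMod N) * (p : ℂ) ^ (m - 1)) * genBernoulli m ψ / m

/-- `z` is a unit at all places above `p`: it is not zero, and for some integer `c` prime to `p` the numbers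
`c z` and `c / z` are algebraic integers. -/
def IsUnitAt (p : ℕ) (z : ℂ) : Prop :=
  z ≠ 0 ∧ ∃ c : ℤ, IsCoprime (p : ℤ) c ∧ IsIntegral ℤ ((c : ℂ) * z) ∧ IsIntegral ℤ ((c : ℂ) * z⁻¹)

open Finset

lemma sum_Icc {N : ℕ} (f : ℕ → ℂ) (h0 : f 0 = f N) :
    ∑ a ∈ Icc 1 N, f a = ∑ a ∈ range N, f a := by
  have h1 : ∑ a ∈ range (N + 1), f a = ∑ a ∈ range N, f a + f N := Finset.sum_range_succ f N
  have h2 : ∑ a ∈ range (N + 1), f a = ∑ a ∈ Icc 1 N, f a + f 0 := by
    rw [Finset.sum_range_succ']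
    congr 1
    refine Finset.sum_bij (fun a _ => a + 1) ?_ ?_ ?_ (fun _ _ => rfl)
    · intro a ha
      have := mem_range.1 ha
      rw [mem_Icc]
      omega
    · intro a _ b _ hab
      omega
    · intro b hb
      rw [mem_Icc] at hb
      exact ⟨b - 1, mem_range.2 (by omega), by omega⟩
  rw [h1, h0] at h2
  exact (add_right_cancel h2).symm

/-- **Theorem.** Let `p ≥ 5` be a prime number, `N₁` prime to `6 p`, and `g > 0` an even number such that the
exponent of `(ℤ/N₁)^×` divides `p^g - 1`. If `2^a 3^b ≥ N₁^3 p^(3g+4)`, then for all Dirichlet characters `ψ` modulo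
`N₁ 2^a 3^b` whose conductor is divisible by `2^a 3^b`, and all `1 ≤ m ≤ p - 1` with `ψ(-1) = (-1)^m`, the number
`(1 - ψ(p) p^(m-1)) B_{m,ψ} / m` is a unit at all places above `p`. -/
theorem result (p : ℕ) (hp : p.Prime) (h5 : 5 ≤ p) (N₁ : ℕ) (hN₁ : N₁.Coprime (6 * p)) (g : ℕ) (hg : Even g)
    (hg0 : 0 < g) (hexp : Monoid.exponent (ZMod N₁)ˣ ∣ p ^ g - 1) (a b : ℕ)
    (hlarge : N₁ ^ 3 * p ^ (3 * g + 4) ≤ 2 ^ a * 3 ^ b) (m : ℕ) (hm1 : 1 ≤ m) (hmp : m ≤ p - 1)
    (ψ : DirichletCharacter ℂ (N₁ * 2 ^ a * 3 ^ b)) (hψ : 2 ^ a * 3 ^ b ∣ ψ.conductor)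
    (hpar : ψ (-1) = (-1) ^ m) : IsUnitAt p (lValue p m ψ) := by
  have hN2 : N₁.Coprime 2 := Nat.Coprime.coprime_dvd_right (by exact ⟨3 * p, by ring⟩) hN₁
  have hN3 : N₁.Coprime 3 := Nat.Coprime.coprime_dvd_right (by exact ⟨2 * p, by ring⟩) hN₁
  have hpN : ¬ p ∣ N₁ := by
    have h1 : N₁.Coprime p := Nat.Coprime.coprime_dvd_right (by exact ⟨6, by ring⟩) hN₁
    exact (Nat.Prime.coprime_iff_not_dvd hp).1 h1.symm
  have hN0 : N₁ ≠ 0 := by
    rintro rfl
    exact hpN (dvd_zero _)
  have hexp' : ∀ U : (ZMod N₁)ˣ, U ^ (p ^ g - 1) = 1 := by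
    intro U
    obtain ⟨c, hc⟩ := hexp
    rw [hc, pow_mul, Monoid.pow_exponent_eq_one, one_pow]
  have key := Pool.Agent.E8helper53.GR.large hp h5 hN2 hN3 hpN hg hg0.ne' hexp' hm1 hmp hlarge rfl ψ
    ((dvd_mul_right _ _).trans hψ) ((dvd_mul_left _ _).trans hψ) hpar
  have hN1 : N₁ * 2 ^ a * 3 ^ b ≠ 1 := by
    intro h
    have h1 : 5 ^ 1 ≤ p ^ (3 * g + 4) :=
      (Nat.pow_le_pow_left h5 1).trans (Nat.pow_le_pow_right hp.pos (by omega))
    have h2 : 1 ≤ N₁ ^ 3 := Nat.one_le_pow _ _ (Nat.pos_of_ne_zero hN0)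
    have h3 : 1 * 5 ^ 1 ≤ N₁ ^ 3 * p ^ (3 * g + 4) := Nat.mul_le_mul h2 h1
    have h4 : 1 * (2 ^ a * 3 ^ b) ≤ N₁ * (2 ^ a * 3 ^ b) :=
      Nat.mul_le_mul_right _ (Nat.pos_of_ne_zero hN0)
    rw [mul_assoc] at h
    omega
  have e1 : lValue p m ψ = (1 - ψ (p : ZMod (N₁ * 2 ^ a * 3 ^ b)) * (p : ℂ) ^ (m - 1)) *
      (((N₁ * 2 ^ a * 3 ^ b : ℕ) : ℂ) ^ (m - 1) * ∑ x ∈ range (N₁ * 2 ^ a * 3 ^ b),
        ψ (x : ZMod (N₁ * 2 ^ a * 3 ^ b)) *
        (((Polynomial.bernoulli m).eval ((x : ℚ) / (N₁ * 2 ^ a * 3 ^ b : ℕ)) : ℚ) : ℂ)) / m := by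
    unfold lValue genBernoulli
    rw [sum_Icc]
    rw [Nat.cast_zero, ZMod.natCast_self, DirichletCharacter.map_zero' ψ hN1, zero_mul, zero_mul]
  rw [e1]
  exact key

end Pool.Agent.Results.MP_c2a07f_nt.TwoPrimesEffectiveH53
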